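import Pool.Agent.Q213.CpSepG

set_option autoImplicit false

open TopologicalSpace

namespace Pool.Agent.Results.MP_2a4eb4_gt.UnderMartin

/-- Martin's axiom for ℵ₁ dense sets: a nonempty preordered set with no uncountable antichain has,
for any family of at most ℵ₁ dense subsets, a filter meeting all of them. -/
def MartinAlephOne : Prop :=
  ∀ (P : Type) (_ : Preorder P), Nonempty P →
    (∀ A : Set P, (∀ p ∈ A, ∀ q ∈ A, p ≠ q → ¬ ∃ r, r ≤ p ∧ r ≤ q) → A.Countable) →
    ∀ 𝒟 : Set (Set P), Cardinal.mk 𝒟 ≤ Cardinal.aleph 1 →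
      (∀ D ∈ 𝒟, ∀ p, ∃ q ∈ D, q ≤ p) →
      ∃ G : Set P, G.Nonempty ∧ (∀ p ∈ G, ∀ q, p ≤ q → q ∈ G) ∧
        (∀ p ∈ G, ∀ q ∈ G, ∃ r ∈ G, r ≤ p ∧ r ≤ q) ∧ ∀ D ∈ 𝒟, (D ∩ G).Nonempty

/-- Under Martin's axiom for ℵ₁ dense sets: for every Tychonoff space X, if L_p(X) is perfectly
normal then C_p(C_p(X)) is perfectly normal, and every subspace of every finite power of C_p(X) is
separable. -/
theorem result (hMA : MartinAlephOne) :
    ∀ (X : Type) [TopologicalSpace X] [T35Space X],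
      PerfectlyNormalSpace
          ↥(Submodule.span ℝ
            (Set.range (fun (x : X) (f : {f : X → ℝ // Continuous f}) => f.1 x))) →
        PerfectlyNormalSpace {g : {f : X → ℝ // Continuous f} → ℝ // Continuous g} ∧
        ∀ (n : ℕ) (S : Set (Fin n → {f : X → ℝ // Continuous f})), SeparableSpace ↥S := by
  intro X _ _ hL
  exact ⟨Q213.CpSep.cpcp_perfect X hMA hL, fun n S => Q213.CpSep.hs_of_perfect X hMA hL n S⟩

end Pool.Agent.Results.MP_2a4eb4_gt.UnderMartin
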